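import Mathlib
import Pool.Agent.H16.ORB.Defs

/-!
# MP_5182ad_lc, oracle barrier with short advice: classes

`AdvL f C`: languages in `C` with advice of length at most `f(n) + O(1)`.
`S2L ℓ O`: as `S_2^{p,O}`, with strings `y`, `z` of length `ℓ(p(|x|))`, `p` a polynomial
(`S2L id O = S2 O`).
-/

open Polynomial

namespace Pool.ORB

/-- Languages in `C/(f(n) + O(1))`: one language `A ∈ C`, advice strings of length at most
`f(n) + c`. -/
def AdvL (f : ℕ → ℕ) (C : Set (Set (List Bool))) : Set (Set (List Bool)) :=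
  {L | ∃ A ∈ C, ∃ (c : ℕ) (adv : ℕ → List Bool), (∀ n, (adv n).length ≤ f n + c) ∧
    ∀ x : List Bool, x ∈ L ↔ pair x (adv x.length) ∈ A}

/-- Symmetric alternation with certificates of length `ℓ(p(|x|))`, `p` a polynomial, and a referee
in `P^O` (polynomial time in the length of its whole input `(x, (y, z))`). -/
def S2L (ℓ : ℕ → ℕ) (O : Set (List Bool)) : Set (Set (List Bool)) :=
  {L | ∃ R ∈ PT O, ∃ p : ℕ[X], ∀ x : List Bool,
    (x ∈ L → ∃ y : List Bool, y.length = ℓ (p.eval x.length) ∧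
      ∀ z : List Bool, z.length = ℓ (p.eval x.length) → pair x (pair y z) ∈ R) ∧
    (x ∉ L → ∃ z : List Bool, z.length = ℓ (p.eval x.length) ∧
      ∀ y : List Bool, y.length = ℓ (p.eval x.length) → pair x (pair y z) ∉ R)}

theorem S2L_id (O : Set (List Bool)) : S2L id O = S2 O := rfl

/-- **The target with short advice and long certificates.**  `f` is the advice bound, `ℓ` the
certificate bound; `ℓ = id`, `f n = (log n)^2` is allowed. -/
def ShortStmt : Prop :=
  ∀ f ℓ : ℕ → ℕ, Monotone ℓ → (∀ n, n ≤ ℓ n) →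
    (∀ C : ℕ, ∃ N : ℕ, ∀ n ≥ N, C * Nat.log 2 (ℓ (n ^ C)) ≤ f n ∧
      C * Nat.log 2 (ℓ (n ^ C)) ≤ n) →
    ∃ O : Set (List Bool), NP O ⊆ AdvL f (UP O ∩ coUP O) ∧ ¬ (Sig O 2 ⊆ S2L ℓ O) ∧
      ¬ (Sig O 2 ⊆ S2 O) ∧ PH O ≠ S2 O

end Pool.ORB
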