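import Mathlib
import Pool.Agent.H16.ORB.Defs
import Pool.Agent.H16.ORB.C
import Pool.Agent.H16.ORB.W
import Pool.Agent.H16.ORS.Defs

/-!
# MP_5182ad_lc, oracle barrier with short advice: statements

Same plan as `Pool/Agent/H16/ORB/W.lean` (proved there), with three changes:
* the needle of an address `(i + 1, z)` has length `(al en i).eval |z|` (so the address string is
  long even if names are short);
* instead of `Legal` we count WRONG addresses (bit different from the truth): a stage makes at most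
  `S` addresses wrong, all in the interval `(n, τ]`; names are found at the end by counting;
* certificates of the referee may have length `cl n`.

Row `XXX` = file `Pool/Agent/H<k>/ORS/XXX.lean`, `theorem Pool.ORS.xxx_row : XXXStmt` (with the
rows it needs as hypotheses).  The old rows in `Pool/Agent/H*/ORB/` are the models to port.
-/

open Polynomial Finset
open Pool.ORB (Ad pre str Wo Enu Acc Tr inl al un LL AgO pair OM PT NP UP coUP Sig S2 PH AdvL S2L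
  Fct FS Fn Val ans Hp Tp Np Sp)

namespace Pool.ORS

/-- Length of the needles of an address. -/
noncomputable def nl (en : Enu) (e : Ad) : ℕ :=
  if e.1 = 0 then e.2.length else (al en (e.1 - 1)).eval e.2.length

/-- The length of the strings of the address `e`. -/
noncomputable def lev (en : Enu) (e : Ad) : ℕ :=
  (pre e.1 true).length + 2 * e.2.length + 1 + nl en e

/-- The oracle of a world. -/
def orc (en : Enu) (ω : Wo) : Set (List Bool) :=
  {s | ∃ (e : Ad) (w : List Bool) (b : Bool), ω e = some (w, b) ∧ w.length = nl en e ∧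
    s = str e w b}

/-- The worlds agree on all addresses of level at most `n`. -/
def Agr (en : Enu) (n : ℕ) (ω ω' : Wo) : Prop := ∀ e, lev en e ≤ n → ω e = ω' e

/-- Truth at an address `(i + 1, pair x a)`: the `i`-th language on `x`. -/
def tr (en : Enu) (O : Set (List Bool)) (e : Ad) : Prop :=
  ∃ x a : List Bool, e.2 = pair x a ∧ Tr en (e.1 - 1) O x

/-- The bit of the address `e = (i + 1, z)` is not the truth. -/
def Wrong (en : Enu) (ω : Wo) (e : Ad) : Prop :=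
  e.1 ≠ 0 ∧ ¬ ((∃ w, ω e = some (w, true)) ↔ tr en (orc en ω) e)

/-- Well formed worlds. -/
structure WF (en : Enu) (ω : Wo) : Prop where
  wf : ∀ e w b, ω e = some (w, b) → w.length = nl en e
  tot : ∀ i z, ω (i + 1, z) ≠ none

/-- The clocked machine `(M, P)` with certificate length `cl` fails to be an `S_2` machine for
`LL O`. -/
def Fail (M : OM) (P : ℕ[X]) (cl : ℕ → ℕ) (O : Set (List Bool)) : Prop :=
  ∃ x : List Bool,
    (x ∈ LL O ∧ ∀ y : List Bool, y.length = cl x.length →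
      ∃ z : List Bool, z.length = cl x.length ∧ ¬ Acc M P O (pair x (pair y z))) ∨
    (x ∉ LL O ∧ ∀ z : List Bool, z.length = cl x.length →
      ∃ y : List Bool, y.length = cl x.length ∧ Acc M P O (pair x (pair y z)))

/-! ## Data of one stage -/

/-- The addresses of the stage: the rows of `1^n` and all addresses `(i + 1, z)` with level in
`(n, τ]`. -/
def InE (en : Enu) (n τ : ℕ) (e : Ad) : Prop :=
  (e.1 = 0 ∧ ∃ y : List Bool, y.length = n ∧ e.2 = pair (un n) y) ∨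
    (e.1 ≠ 0 ∧ n < lev en e ∧ lev en e ≤ τ)

/-- Worlds of the stage: equal to `ω` up to level `n`, no rows outside `E`, at most `S` wrong
addresses above `n`, all in `E`. -/
def Ext (en : Enu) (ω : Wo) (n S : ℕ) (EE : Finset Ad) (ω' : Wo) : Prop :=
  WF en ω' ∧ Agr en n ω ω' ∧ (∀ e, e.1 = 0 → e ∉ EE → n < lev en e → ω' e = none) ∧
    ∃ B : Finset Ad, B.card ≤ S ∧ (∀ e ∈ B, e ∈ EE) ∧
      ∀ e, n < lev en e → Wrong en ω' e → e ∈ B

open Classical in
/-- The facts of a world at the addresses of the stage. -/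
noncomputable def fac (EE : Finset Ad) (ω' : Wo) : FS {e // e ∈ EE} (List Bool) :=
  (univ : Finset {e // e ∈ EE}).biUnion (fun e =>
    match ω' e.1 with
    | some (w, b) => {(e, w, b)}
    | none => ∅)

open Classical in
/-- The valid needles of the address `e` for the secret value `x`: the words of length `nl e` that
begin with `x`. -/
noncomputable def ndl (en : Enu) (k : ℕ) (EE : Finset Ad) (e : {e // e ∈ EE})
    (x : List.Vector Bool k) : Finset (List Bool) :=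
  ((univ : Finset (List.Vector Bool (nl en e.1))).image (fun v => v.1)).filter
    (fun w => w.take k = x.1)

/-- The oracle read off from answers `g` at the addresses of the stage. -/
def orcg (en : Enu) (ω : Wo) (n : ℕ) (EE : Finset Ad)
    (g : {e // e ∈ EE} → List Bool → Option Bool) : Set (List Bool) :=
  {s | ∃ (e : Ad) (w : List Bool) (b : Bool), w.length = nl en e ∧ s = str e w b ∧
    ((∃ h : e ∈ EE, g ⟨e, h⟩ w = some b) ∨ (e ∉ EE ∧ lev en e ≤ n ∧ ω e = some (w, b)))}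

/-- Length of the names: `min (f m) m + K`. -/
def nam (f : ℕ → ℕ) (m K : ℕ) : ℕ := min (f m) m + K

/-- Level of the addresses `(i + 1, pair x a)`, `|x| = m`, `|a| = nam f m K`. -/
noncomputable def levs (en : Enu) (f : ℕ → ℕ) (i m K : ℕ) : ℕ :=
  i + 3 + 2 * (2 * m + 1 + nam f m K) + 1 + (al en i).eval (2 * m + 1 + nam f m K)

/-- Names of all languages `i < k` are numerous at all levels above `n`. -/
def Many (en : Enu) (f : ℕ → ℕ) (k n S : ℕ) : Prop :=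
  ∀ i < k, ∀ m K : ℕ, n < levs en f i m K → S < 2 ^ nam f m K

/-- The growth condition on advice bound and certificate bound. -/
def Cond (f ℓ : ℕ → ℕ) : Prop :=
  Monotone ℓ ∧ (∀ n, n ≤ ℓ n) ∧
    ∀ C : ℕ, ∃ N : ℕ, ∀ n ≥ N, C * Nat.log 2 (ℓ (n ^ C)) ≤ f n ∧
      C * Nat.log 2 (ℓ (n ^ C)) ≤ n

/-- The number `p` of the core for a stage with parameter `n`. -/
noncomputable def pc (P : ℕ[X]) (cl : ℕ → ℕ) (n : ℕ) : ℕ :=
  P.eval (2 * n + 3 * cl n + 2) + cl n + 1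

/-! ## Rows -/

/-- **STR** (60; port of H49/ORB/STR). Lengths and injectivity.  `|e.2| ≤ nl e`;
`e.1 ≤ nl e + 1`, `2|e.2| + 1 ≤ nl e` for `e.1 ≠ 0` (since `al en i = ... + (C i + 2X + 1)`);
level formulas; the string determines address and needle, and the bit unless `e` is a row. -/
def STRStmt : Prop :=
  (∀ (en : Enu) e w b, w.length = nl en e → (str e w b).length = lev en e) ∧
  (∀ e w b e' w' b', str e w b = str e' w' b' → e = e' ∧ w = w' ∧ (e.1 ≠ 0 → b = b')) ∧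
  (∀ x y x' y' : List Bool, pair x y = pair x' y' → x = x' ∧ y = y') ∧
  (∀ x y : List Bool, (pair x y).length = 2 * x.length + 1 + y.length) ∧
  (∀ (en : Enu) (e : Ad), (e.1 = 0 → nl en e = e.2.length ∧ lev en e = 3 * e.2.length + 2) ∧
    (e.1 ≠ 0 → e.1 ≤ nl en e + 1 ∧ 2 * e.2.length + 1 ≤ nl en e ∧
      lev en e = e.1 + 2 * e.2.length + 3 + nl en e)) ∧
  (∀ (en : Enu) (f : ℕ → ℕ) (i m K : ℕ) (x a : List Bool), x.length = m →
    a.length = nam f m K → lev en (i + 1, pair x a) = levs en f i m K)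

/-- **ORW** (40, needs STR; port of H55/ORB/ORW). Membership in the oracle of a world. -/
def ORWStmt : Prop :=
  (∀ (en : Enu) (ω : Wo) (i : ℕ) (z w : List Bool) (b : Bool), w.length = nl en (i + 1, z) →
    (str (i + 1, z) w b ∈ orc en ω ↔ ω (i + 1, z) = some (w, b))) ∧
  (∀ (en : Enu) (ω : Wo) (z w : List Bool), w.length = z.length →
    (false :: pair z w ∈ orc en ω ↔ ∃ b, ω (0, z) = some (w, b))) ∧
  (∀ (en : Enu) (n : ℕ) (ω ω' : Wo), Agr en n ω ω' → AgO n (orc en ω) (orc en ω'))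

/-- **ACC** (70, needs STR, ORW, `Pool.ORB.ACCStmt`; its proof is Pool.ORB.all_acc in
H16/ORB/All.lean). (1) `tr en · e` depends on the oracle below level `lev e` (for `e.2 = pair x a`:
`Tr en i` on `x` depends on the oracle up to length `(al en i).eval |x| ≤ (al en i).eval |e.2| =
nl e < lev e`, evaluation of polynomials over `ℕ` is monotone).  (2) `tr` at `(i + 1, pair x a)` is
`Tr en i` on `x`.  (3) being wrong at `e` depends only on the world up to level `lev e`. -/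
def ACCStmt : Prop :=
  (∀ (en : Enu) (n : ℕ) (O O' : Set (List Bool)) (e : Ad), e.1 ≠ 0 → lev en e ≤ n + 1 →
    AgO n O O' → (tr en O e ↔ tr en O' e)) ∧
  (∀ (en : Enu) (O : Set (List Bool)) (i : ℕ) (x a : List Bool),
    tr en O (i + 1, pair x a) ↔ Tr en i O x) ∧
  (∀ (en : Enu) (n : ℕ) (ω ω' : Wo), Agr en n ω ω' → ∀ e, lev en e ≤ n →
    (Wrong en ω e ↔ Wrong en ω' e))

/-- **POL** (40). Polynomials over `ℕ` and the bounds `Hp`, `Tp`, `Sp` in terms of one number: for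
`P : ℕ[X]` and any function `cl` with `cl n ≤ ℓ (r.eval n)`, `Cond f ℓ`, there is `C` with
`16 * Hp (pc P cl n) * Tp (pc P cl n) ^ 2 ≤ 2 ^ (C * (Nat.log 2 (ℓ (n ^ C)) + 1))` and the same
for `Sp (pc P cl n)`, for all `n ≥ 2`.  (`pc ≤` polynomial in `ℓ (r.eval n)`, `r.eval n ≤ n ^ C`
for `n ≥ 2` and `C` large, `n ≤ n ^ C ≤ ℓ (n ^ C)`, `y < 2 ^ (Nat.log 2 y + 1)`.) -/
def POLStmt : Prop :=
  ∀ (f ℓ : ℕ → ℕ) (P r : ℕ[X]) (cl : ℕ → ℕ), Cond f ℓ → (∀ n, cl n ≤ ℓ (r.eval n)) →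
    ∃ C : ℕ, ∀ n ≥ 2,
      16 * Hp (pc P cl n) * Tp (pc P cl n) ^ 2 ≤ 2 ^ (C * (Nat.log 2 (ℓ (n ^ C)) + 1)) ∧
      Sp (pc P cl n) < 2 ^ (C * (Nat.log 2 (ℓ (n ^ C)) + 1))

/-- **NUM** (120, needs POL). Parameters of a stage.  With `n = 24 (κ + 1)`.  First two clauses:
`POL` and `Cond` with a constant `C' = 100 (C + 1)`: `C (log ℓ(n^C) + 1) ≤ n / 50 ≤ κ` for large
`n`.  Third clause: let `i < k`, `n < levs en f i m K`, `u = max m K`; `nam f m K ≤ 2u`, so
`levs ≤ A(5u + 1)` for one polynomial `A` (sum over `i < k`), hence `n ≤ u ^ c` for large `n`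
(`u → ∞`), `n ^ C ≤ u ^ (c C)`, `Sp < 2 ^ (C (log ℓ (u ^ (c C)) + 1))`, and by `Cond` with
`C'' = 2 C + c C`: `C (log ℓ(u ^ (c C)) + 1) ≤ min (f u) u` for large `u` (`log ℓ ≥ 1`).  If
`K ≥ m`: `u = K ≤ nam f m K`.  If `m > K`: `u = m`, `min (f m) m ≤ nam f m K`.  (`n ≤ ℓ n` and
monotonicity of `ℓ` make `log ℓ (n ^ C)` monotone in `C` for `n ≥ 1`.) -/
def NUMStmt : Prop :=
  ∀ (f ℓ : ℕ → ℕ) (en : Enu) (k : ℕ) (P r : ℕ[X]) (cl : ℕ → ℕ) (B : ℕ), Cond f ℓ →
    (∀ n, cl n ≤ ℓ (r.eval n)) →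
    ∃ κ : ℕ, B ≤ κ ∧
      16 * Hp (pc P cl (24 * (κ + 1))) * Tp (pc P cl (24 * (κ + 1))) ^ 2 ≤ 2 ^ κ ∧
      Sp (pc P cl (24 * (κ + 1))) < 2 ^ κ ∧
      Many en f k (24 * (κ + 1)) (Sp (pc P cl (24 * (κ + 1))))

/-- **FIN** (60, needs STR; port of H49/ORB/FIN). Finiteness; `nl ≥ 6κ + 5` (rows: `nl = 3n + 1`;
others: `24κ + 24 < lev = e.1 + 2|e.2| + 3 + nl ≤ 3 nl + 3`); levels. -/
def FINStmt : Prop :=
  (∀ (en : Enu) (n τ : ℕ), ∃ EE : Finset Ad, ∀ e, e ∈ EE ↔ InE en n τ e) ∧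
  (∀ (en : Enu) (n τ κ : ℕ) (e : Ad), n = 24 * (κ + 1) → InE en n τ e → 6 * κ + 5 ≤ nl en e) ∧
  (∀ (en : Enu) (n τ : ℕ) (e : Ad), InE en n τ e → n < lev en e)

/-- **NDL** (60; port of H76/ORB/NDL). The needle sets. -/
def NDLStmt : Prop :=
  ∀ (en : Enu) (EE : Finset Ad) (κ : ℕ), (∀ e ∈ EE, 6 * κ ≤ nl en e) →
    (∀ (e : {e // e ∈ EE}) (x y : List.Vector Bool (4 * κ)), x ≠ y →
      Disjoint (ndl en (4 * κ) EE e x) (ndl en (4 * κ) EE e y)) ∧
    (∀ (e : {e // e ∈ EE}) (x : List.Vector Bool (4 * κ)),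
      (2 ^ κ) ^ 2 ≤ (ndl en (4 * κ) EE e x).card) ∧
    (∀ (e : {e // e ∈ EE}) (x : List.Vector Bool (4 * κ)) (w : List Bool),
      w ∈ ndl en (4 * κ) EE e x → w.length = nl en e.1)

/-- **FAC** (60, needs STR; port of H76/ORB/FAC). The facts of a world; for worlds of the stage
(`EE` = the addresses `InE en n τ`) the oracle read off from the answers agrees with the oracle of
the world up to length `τ` (`|s| ≤ τ`, `s = str e w b`, `lev e = |s|`: if `e ∉ EE` and `n < lev e`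
then `e` is a row and `ω' e = none`). -/
def FACStmt : Prop :=
  (∀ (EE : Finset Ad) (ω' : Wo) (f : Fct {e // e ∈ EE} (List Bool)),
    f ∈ fac EE ω' ↔ ω' f.1.1 = some (f.2.1, f.2.2)) ∧
  (∀ (EE : Finset Ad) (ω' : Wo), Fn (fac EE ω')) ∧
  (∀ (EE : Finset Ad) (ω' : Wo) (e : {e // e ∈ EE}) (w : List Bool) (b : Bool),
    ans (fac EE ω') e w = some b ↔ ω' e.1 = some (w, b)) ∧
  (∀ (en : Enu) (ω : Wo) (n τ S : ℕ) (EE : Finset Ad) (ω' : Wo),
    (∀ e, e ∈ EE ↔ InE en n τ e) → Ext en ω n S EE ω' →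
    AgO τ (orcg en ω n EE (ans (fac EE ω'))) (orc en ω'))

/-- **QRY** (70, needs STR, `Pool.ORB.LOCStmt` (proof Pool.ORB.loc); port of H49/ORB/QRY). -/
def QRYStmt : Prop :=
  ∀ (en : Enu) (ω : Wo) (n : ℕ) (EE : Finset Ad) (M : OM) (P : ℕ[X]) (x : List Bool)
    (g : {e // e ∈ EE} → List Bool → Option Bool),
    ∃ Q : Finset ({e // e ∈ EE} × List Bool), Q.card ≤ P.eval x.length ∧
      ∀ g' : {e // e ∈ EE} → List Bool → Option Bool, (∀ y ∈ Q, g' y.1 y.2 = g y.1 y.2) →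
        (Acc M P (orcg en ω n EE g') x ↔ Acc M P (orcg en ω n EE g) x)

/-- **EXT** (150, needs `Pool.ORB.FIXStmt` (proof Pool.ORB.fix), STR, ORW, ACC, FIN, NDL, FAC; port
of H2/ORB/EXT, simpler).  Fixed point (`FIX`, `lv = lev en`) of `Φ ω' e =`
* `ω e` if `lev e ≤ n`;
* the value of `ρ` if `e ∈ EE` is an address of `ρ`;
* rows (`e.1 = 0`): `none`, but `some (ν e, false)` in the second case if `e ∈ EE`;
* `some (ν e, truth)` if `e.1 ≠ 0`, where `ν e` is an element of `ndl (4κ) EE e (a e)` if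
  `e ∈ EE`, and `0^(nl e)` otherwise; truth = `tr en (orc en ω') e`.
Causal by `ACC (1)`, `ORW (3)`.  Wrong addresses above `n` are addresses of `ρ` (`B` = image of
`ρ`, so `B.card ≤ ρ.card ≤ S`).  `2^n > |ρ|` rows. -/
def EXTStmt : Prop :=
  ∀ (en : Enu) (ω : Wo) (κ n τ S : ℕ) (EE : Finset Ad), WF en ω → n = 24 * (κ + 1) →
    (∀ e, e ∈ EE ↔ InE en n τ e) → S < 2 ^ κ →
    ∀ (a : {e // e ∈ EE} → List.Vector Bool (4 * κ)) (ρ : FS {e // e ∈ EE} (List Bool)),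
      Fn ρ → Val (ndl en (4 * κ) EE) a ρ → ρ.card ≤ S →
      (∃ ω' : Wo, Ext en ω n S EE ω' ∧ ρ ⊆ fac EE ω' ∧
        Val (ndl en (4 * κ) EE) a (fac EE ω') ∧
        ∃ y : List Bool, y.length = n ∧ ω' (0, pair (un n) y) = none) ∧
      (∃ ω' : Wo, Ext en ω n S EE ω' ∧ ρ ⊆ fac EE ω' ∧
        Val (ndl en (4 * κ) EE) a (fac EE ω') ∧
        ∀ y : List Bool, y.length = n → ω' (0, pair (un n) y) ≠ none)

/-- **STG** (130, needs `Pool.ORB.CoreStmt` (proof Pool.ORB.all_core), STR, ORW, ACC, NUM, FIN, NDL,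
FAC, QRY, EXT, `Pool.ORB.ACCStmt`; port of H2/ORB/STG). One stage.  `κ ≥ ℓ0` from `NUM`,
`n = 24 (κ + 1)`, `m = cl n`, `len = 2n + 3m + 2`, `time = P(len)`, `τ = len + time + (level of the
rows) = len + time + 3 (3n + 1) + 2`; core with `p = pc P cl n`, `q = 2^κ`,
`W = List.Vector Bool (4κ)`, `S = Sp p`.  Result: `ω'` from the core, `ℓ' = τ + 1`; the wrong
addresses above `n` are in `B ⊆ EE`, so of level `≤ τ` (rows are never wrong). -/
def STGStmt : Prop :=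
  ∀ (f ℓ : ℕ → ℕ) (en : Enu) (k : ℕ) (M : OM) (P r : ℕ[X]) (cl : ℕ → ℕ) (ω : Wo) (ℓ0 : ℕ),
    Cond f ℓ → (∀ n, cl n ≤ ℓ (r.eval n)) → WF en ω →
    ∃ (ω' : Wo) (n ℓ' S : ℕ), WF en ω' ∧ ℓ0 ≤ n ∧ n < ℓ' ∧ Agr en n ω ω' ∧
      Many en f k n S ∧
      (∃ B : Finset Ad, B.card ≤ S ∧ ∀ e, n < lev en e → Wrong en ω' e → e ∈ B ∧ lev en e ≤ ℓ') ∧
      ∀ ω'' : Wo, WF en ω'' → Agr en ℓ' ω' ω'' → Fail M P cl (orc en ω'')

/-- **BAS** (40, needs `Pool.ORB.FIXStmt`, ORW, ACC; port of H55/ORB/BAS). A world without wrong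
addresses. -/
def BASStmt : Prop := ∀ en : Enu, ∃ ω : Wo, WF en ω ∧ ∀ e, ¬ Wrong en ω e

/-- **LIM** (110, needs STG, BAS, ORW, ACC, STR; port of H59/ORB/LIM). The limit.  `ω_0` from
`BAS`, `ℓ_0 = 0`; `ω_{k+1}, n_k, ℓ_{k+1}, S_k` from `STG` for `ω_k`, `ℓ_k`, the `k`-th candidate;
`ω e := ω_{lev e} e` (`ℓ_k ≥ k`); `Agr ℓ_k ω_k ω`.  Wrong addresses `e` of `ω` with
`ℓ_k < lev e ≤ ℓ_{k+1}`: `ω_k` has no wrong address above `ℓ_k` (`STG`: wrong ones above `n_{k-1}`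
have level `≤ ℓ_k`; `BAS` for `k = 0`), so `e` has level `> n_k` (below, `ω` agrees with `ω_k`) and is
in `B_k`.  (`ACC (3)`.) -/
def LIMStmt : Prop :=
  ∀ (f ℓ : ℕ → ℕ) (en : Enu) (cM : ℕ → OM) (cP cr : ℕ → ℕ[X]) (cl : ℕ → ℕ → ℕ),
    Cond f ℓ → (∀ k n, cl k n ≤ ℓ ((cr k).eval n)) →
    ∃ ω : Wo, WF en ω ∧ (∀ k, Fail (cM k) (cP k) (cl k) (orc en ω)) ∧
      ∃ (nn ℓℓ S : ℕ → ℕ) (B : ℕ → Finset Ad), ℓℓ 0 = 0 ∧
        (∀ k, ℓℓ k < ℓℓ (k + 1) ∧ Many en f k (nn k) (S k) ∧ (B k).card ≤ S k) ∧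
        ∀ k e, ℓℓ k < lev en e → lev en e ≤ ℓℓ (k + 1) → Wrong en ω e →
          nn k < lev en e ∧ e ∈ B k

/-- **NAM** (70, needs STR). Names.  For `i` take `K` with `S k < 2 ^ K` for all `k ≤ i`.  For `m`
let `L = levs en f i m K > 0` and `k` with `ℓℓ k < L ≤ ℓℓ (k + 1)`.  If every name `a` of length
`nam f m K` had a wrong address `(i + 1, pair x a)`, `|x| = m` (its level is `L`), then these
addresses are in `B k`, different for different `a`: `2 ^ nam f m K ≤ S k`, and `nn k < L`.  If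
`i < k` this contradicts `Many`; if `k ≤ i` then `S k < 2 ^ K ≤ 2 ^ nam f m K`. -/
def NAMStmt : Prop :=
  ∀ (f : ℕ → ℕ) (en : Enu) (ω : Wo) (nn ℓℓ S : ℕ → ℕ) (B : ℕ → Finset Ad), ℓℓ 0 = 0 →
    (∀ k, ℓℓ k < ℓℓ (k + 1) ∧ Many en f k (nn k) (S k) ∧ (B k).card ≤ S k) →
    (∀ k e, ℓℓ k < lev en e → lev en e ≤ ℓℓ (k + 1) → Wrong en ω e →
      nn k < lev en e ∧ e ∈ B k) →
    ∀ i, ∃ K, ∀ m, ∃ a : List Bool, a.length = nam f m K ∧
      ∀ x : List Bool, x.length = m → ¬ Wrong en ω (i + 1, pair x a)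

/-- **TGT** (100, needs LIM, NAM, ORW, ACC, STR, `Pool.ORB.PREStmt`, `Pool.ORB.ENUStmt`; port of
H16/ORB/Up.lean). The target `Pool.ORB.ShortStmt`: candidates `k`: machine, time bound and length
polynomial `r` of the `(k / 2)`-th triple with `cl = fun n => ℓ (r.eval n)` for even `k`,
`cl = fun n => r.eval n` for odd `k` (`r.eval n ≤ ℓ (r.eval n)`). -/
def TGTNeeds : Prop := Pool.ORB.ShortStmt

end Pool.ORS
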