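import Mathlib
import Pool.Agent.H16.ORB.Defs
import Pool.Agent.H16.ORB.W
import Pool.Agent.H16.ORB.TGT
import Pool.Agent.H16.ORS.Defs
import Pool.Agent.H16.ORS.W

/-!
# MP_5182ad_lc, oracle barrier with short advice: the target
-/

open Classical Polynomial Finset

namespace Pool.ORS

open Pool.ORB (Ad pre str Wo Enu Acc Tr inl al un LL AgO pair OM PT NP UP coUP Sig S2 PH AdvL S2L
  Fct FS Fn Val ans Hp Tp Np Sp acc_iff ll_sig)

/-- The bit of a right address is the truth. -/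
theorem bit_iff (hACC : ACCStmt) {en : Enu} {ω : Wo} {i : ℕ} {x a : List Bool}
    (h : ¬ Wrong en ω (i + 1, pair x a)) :
    (∃ w, ω (i + 1, pair x a) = some (w, true)) ↔ Tr en i (orc en ω) x := by
  have h1 : (∃ w, ω (i + 1, pair x a) = some (w, true)) ↔
      tr en (orc en ω) (i + 1, pair x a) := by
    by_contra hc
    exact h ⟨Nat.succ_ne_zero i, hc⟩
  exact h1.trans (hACC.2.1 en (orc en ω) i x a)

theorem up_sub {f : ℕ → ℕ} {en : Enu} {ω : Wo} (hen : Function.Surjective en) (hω : WF en ω)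
    (hN : ∀ i, ∃ K, ∀ m, ∃ a : List Bool, a.length = nam f m K ∧
      ∀ x : List Bool, x.length = m → ¬ Wrong en ω (i + 1, pair x a))
    (hPRE : Pool.ORB.PREStmt) (hORW : ORWStmt) (hACC : ACCStmt) :
    NP (orc en ω) ⊆ AdvL f (UP (orc en ω) ∩ coUP (orc en ω)) := by
  rintro L ⟨R, ⟨M, P, hMP⟩, q, hq⟩
  obtain ⟨i, hi⟩ := hen (M, P, q)
  have hnl : ∀ z : List Bool, nl en (i + 1, z) = (al en i).eval z.length := by
    intro z
    simp [nl]
  have hz : ∀ (z w : List Bool) (b : Bool), w.length = (al en i).eval z.length →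
      (pre (i + 1) b ++ pair z w ∈ orc en ω ↔ ω (i + 1, z) = some (w, b)) :=
    fun z w b h => hORW.1 en ω i z w b (h.trans (hnl z).symm)
  have hu : ∀ (b : Bool) (x w w' : List Bool), w.length = (al en i).eval x.length →
      w'.length = (al en i).eval x.length →
      pair x w ∈ {v | pre (i + 1) b ++ v ∈ orc en ω} →
      pair x w' ∈ {v | pre (i + 1) b ++ v ∈ orc en ω} → w = w' := by
    intro b x w w' hw hw' h1 h2
    have h3 := (hz x w b hw).1 h1
    have h4 := (hz x w' b hw').1 h2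
    rw [h3] at h4
    simpa using h4
  obtain ⟨K, hK⟩ := hN i
  choose adv hadv using hK
  refine ⟨{z | ∃ w, ω (i + 1, z) = some (w, true)}, ⟨?_, ?_⟩, K, adv, ?_, ?_⟩
  · refine ⟨{v | pre (i + 1) true ++ v ∈ orc en ω}, (hPRE (orc en ω) (pre (i + 1) true)).1,
      al en i, hu true, ?_⟩
    intro x
    constructor
    · rintro ⟨w, hw⟩
      have hl := (hω.wf _ _ _ hw).trans (hnl x)
      exact ⟨w, hl, (hz x w true hl).2 hw⟩
    · rintro ⟨w, hl, hw⟩
      exact ⟨w, (hz x w true hl).1 hw⟩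
  · show {z | ∃ w, ω (i + 1, z) = some (w, true)}ᶜ ∈ UP (orc en ω)
    refine ⟨{v | pre (i + 1) false ++ v ∈ orc en ω}, (hPRE (orc en ω) (pre (i + 1) false)).1,
      al en i, hu false, ?_⟩
    intro x
    constructor
    · intro hx
      have hx' : ¬ ∃ w, ω (i + 1, x) = some (w, true) := hx
      obtain ⟨⟨w, b⟩, hwb⟩ := Option.ne_none_iff_exists'.mp (hω.tot i x)
      have hb : b = false := by
        cases b
        · rfl
        · exact absurd ⟨w, hwb⟩ hx'
      subst hb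
      have hl := (hω.wf _ _ _ hwb).trans (hnl x)
      exact ⟨w, hl, (hz x w false hl).2 hwb⟩
    · rintro ⟨w, hl, hw⟩
      have h1 := (hz x w false hl).1 hw
      rintro ⟨w', hw'⟩
      rw [h1] at hw'
      simp at hw'
  · intro n
    rw [(hadv n).1]
    unfold nam
    exact Nat.add_le_add_right (min_le_left _ _) _
  · intro x
    have h1 := bit_iff hACC ((hadv x.length).2 x rfl)
    have h2 : Tr en i (orc en ω) x ↔ x ∈ L := by
      unfold Tr
      rw [hi, hq x]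
      constructor
      · rintro ⟨w, hl, hw⟩
        exact ⟨w, hl, (acc_iff hMP _).1 hw⟩
      · rintro ⟨w, hl, hw⟩
        exact ⟨w, hl, (acc_iff hMP _).2 hw⟩
    exact h2.symm.trans h1.symm

theorem tgt_row (hLIM : LIMStmt) (hNAM : NAMStmt) (hORW : ORWStmt) (hACC : ACCStmt)
    (hPRE : Pool.ORB.PREStmt) (hENU : Pool.ORB.ENUStmt) : Pool.ORB.ShortStmt := by
  intro f ℓ hmono hge hgr
  have hcond : Cond f ℓ := ⟨hmono, hge, hgr⟩
  obtain ⟨en, hen⟩ := hENU
  obtain ⟨ω, hω, hF, nn, ℓℓ, S, B, h0, h1, h2⟩ := hLIM f ℓ en (fun k => (en (k / 2)).1)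
    (fun k => (en (k / 2)).2.1) (fun k => (en (k / 2)).2.2)
    (fun k n => if k % 2 = 0 then ℓ ((en (k / 2)).2.2.eval n) else (en (k / 2)).2.2.eval n)
    hcond (by
      intro k n
      by_cases hk : k % 2 = 0
      · simp [hk]
      · simp only [hk, if_false]
        exact hge _)
  have hN := hNAM f en ω nn ℓℓ S B h0 h1 h2
  have hs : LL (orc en ω) ∈ Sig (orc en ω) 2 := ll_sig hPRE (orc en ω)
  have hn1 : LL (orc en ω) ∉ S2L ℓ (orc en ω) := by
    rintro ⟨R, ⟨M, P, hMP⟩, r, hr⟩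
    obtain ⟨i, hi⟩ := hen (M, P, r)
    have h := hF (2 * i)
    have e1 : 2 * i / 2 = i := by omega
    have e2 : 2 * i % 2 = 0 := by omega
    simp only [e1, e2, hi, if_true] at h
    obtain ⟨x, hx⟩ := h
    rcases hx with ⟨hx, h3⟩ | ⟨hx, h3⟩
    · obtain ⟨y, hy, hz⟩ := (hr x).1 hx
      obtain ⟨z, hzl, hza⟩ := h3 y hy
      exact hza ((acc_iff hMP _).2 (hz z hzl))
    · obtain ⟨z, hz, hy⟩ := (hr x).2 hx
      obtain ⟨y, hyl, hya⟩ := h3 z hz
      exact hy y hyl ((acc_iff hMP _).1 hya)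
  have hn2 : LL (orc en ω) ∉ S2 (orc en ω) := by
    rintro ⟨R, ⟨M, P, hMP⟩, r, hr⟩
    obtain ⟨i, hi⟩ := hen (M, P, r)
    have h := hF (2 * i + 1)
    have e1 : (2 * i + 1) / 2 = i := by omega
    have e2 : (2 * i + 1) % 2 ≠ 0 := by omega
    simp only [e1, e2, hi, if_false] at h
    obtain ⟨x, hx⟩ := h
    rcases hx with ⟨hx, h3⟩ | ⟨hx, h3⟩
    · obtain ⟨y, hy, hz⟩ := (hr x).1 hx
      obtain ⟨z, hzl, hza⟩ := h3 y hy
      exact hza ((acc_iff hMP _).2 (hz z hzl))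
    · obtain ⟨z, hz, hy⟩ := (hr x).2 hx
      obtain ⟨y, hyl, hya⟩ := h3 z hz
      exact hy y hyl ((acc_iff hMP _).1 hya)
  refine ⟨orc en ω, up_sub hen hω hN hPRE hORW hACC, fun h => hn1 (h hs), fun h => hn2 (h hs),
    fun h => hn2 ?_⟩
  rw [← h]
  exact Set.mem_iUnion.mpr ⟨2, hs⟩

end Pool.ORS
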