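import Mathlib
import Pool.Agent.H16.ORB.All
import Pool.Agent.H16.ORS.Defs
import Pool.Agent.H16.ORS.W
import Pool.Agent.H16.ORS.TGT
import Pool.Agent.H1.ORS.FAC
import Pool.Agent.H17.ORS.LIM
import Pool.Agent.H17.ORS.STG
import Pool.Agent.H45.ORS.ORW
import Pool.Agent.H51.ORS.NUM
import Pool.Agent.H52.ORS.ACC
import Pool.Agent.H54.ORS.EXT
import Pool.Agent.H63.ORS.NDL
import Pool.Agent.H67.ORS.STR
import Pool.Agent.H78.ORS.BAS
import Pool.Agent.H78.ORS.QRY
import Pool.Agent.H82.ORS.FIN
import Pool.Agent.H82.ORS.NAM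
import Pool.Agent.H91.ORS.POL

/-!
# MP_5182ad_lc, oracle barrier with short advice: assembly
-/

namespace Pool.ORS

theorem all_str : STRStmt := str_row

theorem all_orw : ORWStmt := orw_row all_str

theorem all_acc : ACCStmt := acc_row all_str all_orw Pool.ORB.all_acc

theorem all_num : NUMStmt := num_row pol_row

theorem all_fin : FINStmt := fin_row all_str

theorem all_fac : FACStmt := fac_row all_str

theorem all_qry : QRYStmt := qry_row all_str Pool.ORB.loc

theorem all_ext : EXTStmt :=
  ext_row Pool.ORB.fix all_str all_orw all_acc all_fin ndl_row all_fac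

theorem all_stg : STGStmt :=
  stg_row Pool.ORB.all_core all_str all_orw all_acc all_num all_fin ndl_row all_fac all_qry
    all_ext Pool.ORB.all_acc

theorem all_bas : BASStmt := bas_row Pool.ORB.fix all_orw all_acc

theorem all_lim : LIMStmt := lim_row all_stg all_bas all_orw all_acc all_str

theorem all_nam : NAMStmt := nam_row all_str

theorem all_short : Pool.ORB.ShortStmt :=
  tgt_row all_lim all_nam all_orw all_acc Pool.ORB.pre_thm Pool.ORB.enu

end Pool.ORS
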